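import Pool.Agent.V11230.LQ2
import Pool.Agent.NPC.Classes
import Pool.Agent.NPC.Dec

/-!
# Maximum pairwise stable matchings with lower quotas 1 or 2 are NP-hard to find

A reduction from 3SAT.  For each variable `x` there are residents `v`, `p`, `n` and hospitals
`T` and `F` with lower quota 2; the resident `v` ranks `T` before `F`, and if all residents are
assigned then exactly one of `T` and `F` is open.  For each clause there is a resident that can go
to three hospitals with lower quota 2, one for each literal, whose other resident prefers the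
hospital `T` or `F` that is open when the literal is false.  Each resident has as first choice a
private hospital with lower quota 2, so that no hospital is popular.
-/

set_option autoImplicit false

namespace Pool.Agent.NPC.V11230.LQ

open Pool.Agent.NPC

/-! ### Polynomial time -/

section

variable {α : Type} [TEnc α] {f : α → List Cl} {u : α → ℕ} {l : α → Lit ℕ}

theorem poly_lit (hf : Poly f) (hu : Poly u) : Poly (fun a => lit (f a) (u a)) := by
  unfold lit litC
  have h3 := Poly.const (α := α) 3
  have hc : Poly (fun a => (f a).getD (u a / 3) dcl) :=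
    Poly.getD hf (Poly.div hu h3) (Poly.const dcl)
  have hm : Poly (fun a => u a % 3) := Poly.mod hu h3
  exact Poly.ite (Poly.decide_eq hm (Poly.const 0)) (Poly.fst hc)
    (Poly.ite (Poly.decide_eq hm (Poly.const 1)) (Poly.fst (Poly.snd hc))
      (Poly.snd (Poly.snd hc)))

theorem poly_yh (hu : Poly u) (hl : Poly l) : Poly (fun a => yh (u a) (l a)) := by
  unfold yh
  exact Poly.ite ((Poly.fst hl).congr fun a => by simp)
    (Poly.add (Poly.mul (Poly.const 29) hu) (Poly.snd hl))
    (Poly.add (Poly.mul (Poly.const 26) hu) (Poly.snd hl))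

theorem poly_l3 {x y z : α → ℕ} (hx : Poly x) (hy : Poly y) (hz : Poly z) :
    Poly (fun a => [x a, y a, z a]) :=
  Poly.cons hx (Poly.cons hy (Poly.cons hz (Poly.const [])))

theorem poly_l4 {x y z w : α → ℕ} (hx : Poly x) (hy : Poly y) (hz : Poly z) (hw : Poly w) :
    Poly (fun a => [x a, y a, z a, w a]) :=
  Poly.cons hx (poly_l3 hy hz hw)

theorem poly_rlf (hf : Poly f) (hu : Poly u) : Poly (fun a => rlf (f a) (u a)) := by
  have hL : Poly (fun a => (f a).length) := Poly.length hf
  have c : ∀ m : ℕ, Poly (fun a => m * (f a).length) := fun m => Poly.mul (Poly.const m) hL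
  have i9 : Poly (fun a => 32 * (f a).length + 3 * (u a - 9 * (f a).length)) :=
    Poly.add (c 32) (Poly.mul (Poly.const 3) (Poly.sub hu (c 9)))
  unfold rlf
  refine Poly.ite (Poly.decide_lt hu (c 3))
    (poly_l3 hu (Poly.add (c 26) hu) (Poly.add (c 29) hu))
    (Poly.ite (Poly.decide_lt hu (c 6))
      (poly_l3 hu (Poly.add (c 26) (Poly.sub hu (c 3))) (Poly.add (c 13) hu))
      (Poly.ite (Poly.decide_lt hu (c 9))
        (poly_l3 hu (Poly.add (c 29) (Poly.sub hu (c 6))) (Poly.add (c 13) hu))
        (Poly.ite (Poly.decide_lt hu (c 10))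
          (poly_l4 hu i9 (Poly.add i9 (Poly.const 1)) (Poly.add i9 (Poly.const 2)))
          (poly_l4 hu (poly_yh hL (poly_lit hf (Poly.sub hu (c 10))))
            (Poly.add (c 32) (Poly.sub hu (c 10))) (Poly.add (c 13) hu)))))

end

theorem poly_inst : Poly inst := by
  have ur : ∀ (m : ℕ), UPoly (fun φ : List Cl => m * φ.length) := fun m =>
    UPoly.mul (UPoly.const m) (UPoly.length Poly.id)
  unfold inst
  refine Poly.pair ?_ ?_
  · refine Poly.map (F := fun (φ : List Cl) (i : ℕ) => rlf φ i) (UPoly.range (ur 13)) ?_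
    exact poly_rlf (Poly.fst Poly.id) (Poly.snd Poly.id)
  · refine Poly.map (F := fun (φ : List Cl) (j : ℕ) =>
      ((List.range (13 * φ.length)).filter (fun i => decide (j ∈ rlf φ i)), lqf φ.length j,
        13 * φ.length)) (UPoly.range (ur 35)) ?_
    refine Poly.pair ?_ (Poly.pair ?_ ?_)
    · refine Poly.filter (l := fun a : List Cl × ℕ => List.range (13 * a.1.length))
        (p := fun (a : List Cl × ℕ) (i : ℕ) => decide (a.2 ∈ rlf a.1 i))
        ((UPoly.range (ur 13)).comp (Poly.fst Poly.id)) ?_
      refine (Poly.decide_mem (Poly.snd (Poly.fst Poly.id))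
        (poly_rlf (Poly.fst (Poly.fst Poly.id)) (Poly.snd Poly.id))).congr fun _ => ?_
      exact decide_eq_decide.2 Iff.rfl
    · have hL : Poly (fun a : List Cl × ℕ => a.1.length) := Poly.length (Poly.fst Poly.id)
      have hj : Poly (fun a : List Cl × ℕ => a.2) := Poly.snd Poly.id
      unfold lqf
      refine Poly.ite ((Poly.and (Poly.decide_le (Poly.mul (Poly.const 13) hL) hj)
        (Poly.decide_lt hj (Poly.mul (Poly.const 26) hL))).congr fun a => ?_) (Poly.const 1)
        (Poly.const 2)
      rw [Bool.decide_and]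
    · exact (Poly.mul (Poly.const 13) (Poly.length Poly.id)).comp (Poly.fst Poly.id)

/-! ### The statement -/

/-- The instance is correct, and all lower quotas are 1 or 2. -/
def Small (I : Inst) : Prop := Valid I ∧ ∀ j < I.2.length, 1 ≤ lq I j ∧ lq I j ≤ 2

/-- there is a pairwise stable matching of size at least `k` -/
def LargeA (q : Inst × ℕ) : Prop := ∃ M, PairwiseStable q.1 M ∧ q.2 ≤ size M

/-- there is a popular pairwise stable matching of size at least `k` -/
def LargeB (q : Inst × ℕ) : Prop := ∃ M, PopularStable q.1 M ∧ q.2 ≤ size M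

/-- `M` is a pairwise stable matching of maximum size -/
def SolvesA (I : Inst) (M : Asg) : Prop :=
  PairwiseStable I M ∧ ∀ M', PairwiseStable I M' → size M' ≤ size M

/-- `M` is a popular pairwise stable matching of maximum size -/
def SolvesB (I : Inst) (M : Asg) : Prop :=
  PopularStable I M ∧ ∀ M', PopularStable I M' → size M' ≤ size M

/-- the instance with the number of residents as threshold -/
def red (φ : List Cl) : Inst × ℕ := (inst φ, (inst φ).1.length)

theorem poly_red : Poly red := Poly.pair poly_inst (Poly.length (Poly.fst poly_inst))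

/-- The promise on the formula. -/
abbrev PrF (φ : List Cl) : Prop := Distinct3 φ ∧ Bounded3 φ ∧ φ ≠ []

theorem lq_ge {φ : List Cl} (j : ℕ) (hj : j < (inst φ).2.length) : 1 ≤ lq (inst φ) j := by
  rw [len2] at hj
  rw [(hosp_inst hj).2.1]
  unfold lqf
  split_ifs <;> omega

theorem small_inst {φ : List Cl} (h : PrF φ) : Small (inst φ) :=
  ⟨valid_inst (List.length_pos_iff.2 h.2.2) (bd_of h.2.1 h.2.2),
    fun j hj => ⟨lq_ge j hj, lq_le j hj⟩⟩

theorem iffA {φ : List Cl} (h : PrF φ) : SAT3 φ ↔ LargeA (red φ) :=
  sat_iff (bd_of h.2.1 h.2.2)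

theorem iffB {φ : List Cl} (h : PrF φ) : SAT3 φ ↔ LargeB (red φ) := by
  rw [iffA h]
  unfold LargeA LargeB red
  simp only [popularStable_iff (bd_of h.2.1 h.2.2)]

theorem hardA : HardPr (fun q : Inst × ℕ => Small q.1) LargeA :=
  hardPr_SAT3b.trans poly_red (fun _ h => small_inst h) (fun _ h => iffA h)

theorem hardB : HardPr (fun q : Inst × ℕ => Small q.1) LargeB :=
  hardPr_SAT3b.trans poly_red (fun _ h => small_inst h) (fun _ h => iffB h)

/-- all residents are assigned in the matching that the bit string encodes -/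
def test (y : List Bool) : Bool :=
  match unbits Asg y with
  | none => false
  | some M => M.all (fun o => o.isSome)

theorem poly_test : Poly test := by
  have h : Poly (fun a : List Bool × Asg => a.2.all (fun o => o.isSome)) :=
    Poly.all (l := fun a : List Bool × Asg => a.2) (p := fun _ o => o.isSome)
      (Poly.snd Poly.id) (Poly.isSome (Poly.snd Poly.id))
  refine (Poly.optCases (o := fun y : List Bool => unbits Asg y) (g := fun _ => false)
    (h := fun _ M => M.all (fun o => o.isSome)) poly_unbits (Poly.const _) h).congr fun y => ?_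
  unfold test
  cases unbits Asg y <;> rfl

theorem test_bits (M : Asg) : test (bits M) = true ↔ M.length ≤ size M := by
  unfold test
  rw [unbits_bits]
  have h : M.length ≤ size M ↔ size M = M.length :=
    ⟨fun h => le_antisymm (size_le M) h, fun h => h.ge⟩
  rw [h, size_eq_iff]
  simp only [List.all_eq_true]
  constructor
  · intro h i hi
    unfold hosp
    rw [List.getD_eq_getElem?_getD, List.getElem?_eq_getElem hi, Option.getD_some]
    have := h _ (List.getElem_mem hi)
    intro hc
    rw [hc] at this
    simp at this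
  · intro h o ho
    obtain ⟨i, hi, rfl⟩ := List.getElem_of_mem ho
    have := h i hi
    unfold hosp at this
    rw [List.getD_eq_getElem?_getD, List.getElem?_eq_getElem hi, Option.getD_some] at this
    exact Option.isSome_iff_ne_none.2 this

/-- A polynomial-time algorithm for the optimization problem puts all of NP into P. -/
theorem collapse {S : Inst → Asg → Prop} {Q : Inst → Asg → Prop}
    (hS : ∀ I M, S I M ↔ Q I M ∧ ∀ M', Q I M' → size M' ≤ size M)
    (hlen : ∀ I M, Q I M → M.length = I.1.length)
    (hh : HardPr (fun φ : List Cl => PrF φ) SAT3)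
    (hiff : ∀ φ, PrF φ → (SAT3 φ ↔ ∃ M, Q (inst φ) M ∧ (inst φ).1.length ≤ size M))
    {A : List Bool → List Bool} (hA : PolyTime A)
    (hAS : ∀ I, Small I → ∃ M, A (bits I) = bits M ∧ S I M) :
    ∀ L, InNP L → InP L := by
  intro L hL
  obtain ⟨f, hf, hpr, hfL⟩ := hh L hL
  have h1 : PC (fun x : List Bool => x) (bits : Inst → List Bool) (fun x => inst (f x)) :=
    PC.comp (g := inst) (f := f) poly_inst hf
  have h1' : PC (fun x : List Bool => x) (fun x : List Bool => x) (fun x => bits (inst (f x))) :=
    h1
  have h2 : PC (fun x : List Bool => x) (fun x : List Bool => x) A :=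
    H642R2.TMSim.polyTime_toPC hA
  have h3 : PC (fun x : List Bool => x) (fun x : List Bool => x)
      (fun x => A (bits (inst (f x)))) := PC.comp h2 h1'
  refine ⟨_, polyTime_test (PC.toPolyTime h3) poly_test, fun x => ?_⟩
  rw [hfL x, hiff _ (hpr x)]
  obtain ⟨M, hM, hSM⟩ := hAS _ (small_inst (hpr x))
  rw [hM]
  have hQ := (hS _ _).1 hSM
  have h4 := test_bits M
  rw [hlen _ _ hQ.1] at h4
  have h5 : (∃ M, Q (inst (f x)) M ∧ (inst (f x)).1.length ≤ size M) ↔
      (inst (f x)).1.length ≤ size M :=
    ⟨fun ⟨M', h, h'⟩ => h'.trans (hQ.2 M' h), fun h => ⟨M, hQ.1, h⟩⟩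
  rw [h5, ← h4]
  simp

end Pool.Agent.NPC.V11230.LQ

namespace Pool.Agent.Results.MP_52010b_lc.LowerQuotaTwo

open Pool.Agent.NPC Pool.Agent.NPC.V11230.LQ

/-- **Problems A and B with lower quotas 1 or 2 are NP-hard.** -/
theorem result :
    (∀ L, InNP L → ∃ f : List Bool → Inst, ∃ k : List Bool → ℕ,
      PolyTime (fun x => bits (f x, k x)) ∧ ∀ x, Valid (f x) ∧
        (∀ j < (f x).2.length, 1 ≤ lq (f x) j ∧ lq (f x) j ≤ 2) ∧
        (x ∈ L ↔ ∃ M, PairwiseStable (f x) M ∧ k x ≤ size M) ∧
        (x ∈ L ↔ ∃ M, PopularStable (f x) M ∧ k x ≤ size M)) ∧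
    (∀ A : List Bool → List Bool, PolyTime A →
      (∀ I, Valid I → (∀ j < I.2.length, 1 ≤ lq I j ∧ lq I j ≤ 2) →
        ∃ M, A (bits I) = bits M ∧ PairwiseStable I M ∧
          ∀ M', PairwiseStable I M' → size M' ≤ size M) →
      ∀ L, InNP L → InP L) ∧
    (∀ A : List Bool → List Bool, PolyTime A →
      (∀ I, Valid I → (∀ j < I.2.length, 1 ≤ lq I j ∧ lq I j ≤ 2) →
        ∃ M, A (bits I) = bits M ∧ PopularStable I M ∧
          ∀ M', PopularStable I M' → size M' ≤ size M) →
      ∀ L, InNP L → InP L) := by
  refine ⟨?_, ?_, ?_⟩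
  · intro L hL
    obtain ⟨g, hg, hpr, hgL⟩ := hardPr_SAT3b L hL
    refine ⟨fun x => inst (g x), fun x => (inst (g x)).1.length, ?_, fun x => ?_⟩
    · have h1 : PC (fun x : List Bool => x) (bits : Inst × ℕ → List Bool)
          (fun x => red (g x)) := PC.comp (g := red) (f := g) poly_red hg
      exact PC.toPolyTime h1
    · have hs := small_inst (hpr x)
      exact ⟨hs.1, hs.2, (hgL x).trans (iffA (hpr x)), (hgL x).trans (iffB (hpr x))⟩
  · intro A hA h
    refine collapse (S := SolvesA) (Q := PairwiseStable) (fun _ _ => Iff.rfl)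
      (fun _ _ h => h.1.1.1) hardPr_SAT3b (fun φ h => iffA h) hA
      (fun I hI => h I hI.1 hI.2)
  · intro A hA h
    refine collapse (S := SolvesB) (Q := PopularStable) (fun _ _ => Iff.rfl)
      (fun _ _ h => h.1.1.1.1) hardPr_SAT3b (fun φ h => iffB h) hA
      (fun I hI => h I hI.1 hI.2)

end Pool.Agent.Results.MP_52010b_lc.LowerQuotaTwo
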